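import Mathlib
import Pool.Agent.Helper523.LitFinal

set_option autoImplicit false

namespace Pool.Agent.Results.MP_efea25_an.Q2Disproof

open Polynomial

/-- Littlewood polynomials of degree n: all coefficients of index 0..n are 1 or -1. -/
def Littlewood (n : ℕ) : Set ℝ[X] :=
  {p | p.natDegree = n ∧ ∀ j ≤ n, p.coeff j = 1 ∨ p.coeff j = -1}

/-- The number of zeros of p in [-1,1], counted with multiplicity. -/
noncomputable def zerosIn (p : ℝ[X]) : ℕ :=
  Multiset.card (p.roots.filter (fun x => -1 ≤ x ∧ x ≤ 1))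

lemma many_zeros (n : ℕ) (hn : 1 ≤ n) : ∃ p ∈ Littlewood n,
    (1 / 3842) * Real.sqrt n ≤ (zerosIn p : ℝ) := by
  obtain ⟨ε, hε, S, hS, hS2⟩ := Pool.Agent.Helper523.LitFinal.lit_sqrt n hn
  set p : ℝ[X] := Pool.Agent.Helper523.LitFinal.poly ε n with hp
  have hc : ∀ j, p.coeff j = if j ≤ n then ε j else 0 := fun j =>
    Pool.Agent.Helper523.LitFinal.poly_coeff _ n j
  have hne : ∀ j, ε j ≠ 0 := by
    intro j
    rcases hε j with h | h <;> rw [h] <;> norm_num
  have hp0 : p ≠ 0 := by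
    intro h
    have h1 := hc 0
    rw [h, coeff_zero, if_pos (Nat.zero_le n)] at h1
    exact hne 0 h1.symm
  refine ⟨p, ⟨?_, ?_⟩, ?_⟩
  · apply le_antisymm
    · rw [natDegree_le_iff_coeff_eq_zero]
      intro j hj
      rw [hc, if_neg (by omega)]
    · apply le_natDegree_of_ne_zero
      rw [hc, if_pos le_rfl]
      exact hne n
  · intro j hj
    rw [hc, if_pos hj]
    exact hε j
  · refine hS.trans ?_
    have h4 : S.card ≤ zerosIn p := by
      unfold zerosIn
      have hle : S.val ≤ p.roots.filter (fun x => -1 ≤ x ∧ x ≤ 1) := by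
        rw [Multiset.le_iff_subset S.nodup]
        intro z hz
        obtain ⟨h1, h2, h3⟩ := hS2 z (Finset.mem_val.mp hz)
        rw [Multiset.mem_filter, mem_roots hp0]
        refine ⟨?_, by linarith, h3⟩
        rw [IsRoot.def, hp]
        unfold Pool.Agent.Helper523.LitFinal.poly
        rw [eval_finsetSum, ← h1]
        apply Finset.sum_congr rfl
        intro j _
        simp
      exact Multiset.card_le_card hle
    exact_mod_cast h4

/-- Disproof of Q2: no bound c log n holds for the number of zeros in [-1,1]. -/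
theorem result : ∀ c : ℝ, 0 < c → ∃ n : ℕ, 2 ≤ n ∧ ∃ p ∈ Littlewood n,
    c * Real.log n < (zerosIn p : ℝ) := by
  intro c hc
  obtain ⟨m, hm⟩ := exists_nat_gt (15368 * c + 2)
  have hm0 : (2 : ℝ) < m := by linarith
  have hm1 : 2 ≤ m := by
    have : (2 : ℝ) ≤ m := by linarith
    exact_mod_cast this
  have hn : 2 ≤ m ^ 4 := by
    calc 2 ≤ m := hm1
      _ = m ^ 1 := (pow_one m).symm
      _ ≤ m ^ 4 := Nat.pow_le_pow_right (by omega) (by norm_num)
  obtain ⟨p, hp, hz⟩ := many_zeros (m ^ 4) (by omega)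
  refine ⟨m ^ 4, hn, p, hp, lt_of_lt_of_le ?_ hz⟩
  have h1 : Real.sqrt ((m ^ 4 : ℕ) : ℝ) = (m : ℝ) ^ 2 := by
    push_cast
    rw [show (m : ℝ) ^ 4 = ((m : ℝ) ^ 2) ^ 2 by ring]
    exact Real.sqrt_sq (by positivity)
  have h2 : Real.log ((m ^ 4 : ℕ) : ℝ) = 4 * Real.log m := by
    push_cast
    rw [Real.log_pow]; norm_num
  rw [h1, h2]
  have h3 : Real.log m ≤ m := by
    have := Real.log_le_sub_one_of_pos (show (0 : ℝ) < m by linarith)
    linarith
  have hmpos : (0 : ℝ) < m := by linarith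
  calc c * (4 * Real.log m) ≤ c * (4 * m) := by gcongr
    _ < 1 / 3842 * (m : ℝ) ^ 2 := by nlinarith

end Pool.Agent.Results.MP_efea25_an.Q2Disproof
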