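import Mathlib
import Pool.Agent.Helper523.LitFinal

set_option autoImplicit false

namespace Pool.Agent.Results.MP_efea25_an.SqrtZeros

open Polynomial

/-- Littlewood polynomials of degree n: all coefficients of index 0..n are 1 or -1. -/
def Littlewood (n : ℕ) : Set ℝ[X] :=
  {p | p.natDegree = n ∧ ∀ j ≤ n, p.coeff j = 1 ∨ p.coeff j = -1}

/-- The number of distinct zeros of p in (0,1]. -/
noncomputable def distinctZeros (p : ℝ[X]) : ℕ := {x : ℝ | 0 < x ∧ x ≤ 1 ∧ p.eval x = 0}.ncard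

lemma finite_zeros (p : ℝ[X]) (hp : p ≠ 0) : {x : ℝ | 0 < x ∧ x ≤ 1 ∧ p.eval x = 0}.Finite := by
  refine (p.roots.toFinset.finite_toSet).subset ?_
  intro x hx
  simp only [Finset.mem_coe, Multiset.mem_toFinset]
  rw [mem_roots hp]
  exact hx.2.2

/-- For every n there is a Littlewood polynomial of degree n with at least c sqrt n distinct
zeros in (0,1]. -/
theorem result : ∃ c : ℝ, 0 < c ∧ ∀ n : ℕ, 1 ≤ n → ∃ p ∈ Littlewood n,
    c * Real.sqrt n ≤ (distinctZeros p : ℝ) := by
  refine ⟨1 / 3842, by norm_num, ?_⟩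
  intro n hn
  obtain ⟨ε, hε, S, hS, hS2⟩ := Pool.Agent.Helper523.LitFinal.lit_sqrt n hn
  set p : ℝ[X] := Pool.Agent.Helper523.LitFinal.poly ε n with hp
  have hc : ∀ j, p.coeff j = if j ≤ n then ε j else 0 := fun j =>
    Pool.Agent.Helper523.LitFinal.poly_coeff _ n j
  have hne : ∀ j, ε j ≠ 0 := by
    intro j
    rcases hε j with h | h <;> rw [h] <;> norm_num
  have hp0 : p ≠ 0 := by
    intro h
    have h1 := hc 0
    rw [h, coeff_zero, if_pos (Nat.zero_le n)] at h1
    exact hne 0 h1.symm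
  refine ⟨p, ⟨?_, ?_⟩, ?_⟩
  · apply le_antisymm
    · rw [natDegree_le_iff_coeff_eq_zero]
      intro j hj
      rw [hc, if_neg (by omega)]
    · apply le_natDegree_of_ne_zero
      rw [hc, if_pos le_rfl]
      exact hne n
  · intro j hj
    rw [hc, if_pos hj]
    exact hε j
  · refine hS.trans ?_
    have hsub : (S : Set ℝ) ⊆ {x : ℝ | 0 < x ∧ x ≤ 1 ∧ p.eval x = 0} := by
      intro z hz
      obtain ⟨h1, h2, h3⟩ := hS2 z hz
      refine ⟨h2, h3, ?_⟩
      rw [hp]
      unfold Pool.Agent.Helper523.LitFinal.poly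
      rw [eval_finsetSum, ← h1]
      apply Finset.sum_congr rfl
      intro j _
      simp
    have h4 := Set.ncard_le_ncard hsub (finite_zeros p hp0)
    rw [Set.ncard_coe_finset] at h4
    unfold distinctZeros
    exact_mod_cast h4

end Pool.Agent.Results.MP_efea25_an.SqrtZeros
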